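import Pool.Agent.Helper35.RD.Kum
import Pool.Agent.Helper51.SigLeo.Member

/-!
# Project RD: infinitely many extensions for one datum
-/

namespace Pool.Agent.Helper35.RD

open NumberField Polynomial Module IsDedekindDomain TensorProduct Pool.Agent.Helper51.SigLeo
open Pool.Agent.Helper51.RP Pool.Agent.Helper42.RD

/-- An automorphism of a compositum which is trivial on both factors is trivial. -/
theorem eq_one_of_sup {K Ω : Type*} [Field K] [Field Ω] [Algebra K Ω]
    (M K₁ : IntermediateField K Ω) [FiniteDimensional K M] (g : ↥(M ⊔ K₁) ≃ₐ[K] ↥(M ⊔ K₁))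
    (h1 : ∀ x : ↥(M ⊔ K₁), (x : Ω) ∈ M → g x = x)
    (h2 : ∀ x : ↥(M ⊔ K₁), (x : Ω) ∈ K₁ → g x = x) : g = 1 := by
  set A : Subalgebra K Ω :=
    (AlgHom.equalizer (g : ↥(M ⊔ K₁) →ₐ[K] ↥(M ⊔ K₁)) (AlgHom.id K _)).map (M ⊔ K₁).val with hA
  have hM : M.toSubalgebra ≤ A := by
    intro x hx
    have hx' : x ∈ M ⊔ K₁ := (le_sup_left : M ≤ M ⊔ K₁) hx
    exact ⟨⟨x, hx'⟩, h1 ⟨x, hx'⟩ hx, rfl⟩
  have hK : K₁.toSubalgebra ≤ A := by
    intro x hx
    have hx' : x ∈ M ⊔ K₁ := (le_sup_right : K₁ ≤ M ⊔ K₁) hx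
    exact ⟨⟨x, hx'⟩, h2 ⟨x, hx'⟩ hx, rfl⟩
  have hsup : (M ⊔ K₁).toSubalgebra ≤ A := by
    rw [IntermediateField.sup_toSubalgebra_of_left]
    exact sup_le hM hK
  ext x
  obtain ⟨y, hy, hyx⟩ := hsup x.2
  have hyx' : y = x := Subtype.ext hyx
  rw [← hyx']
  have : g y = y := hy
  rw [this]
  rfl

/-- **E_INM.** -/
theorem e_inm (h3 : E_TOW) (h5 : E_EXA) (h6 : E_KUM) (h7 : E_GOO) :
    Pool.Agent.Helper76.RD.E_INM := by
  intro p hpF K _ _ _ ιinf ιp L M _ _ hcop hnl R al hDat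
  have hp : p.Prime := hpF.out
  have hpne : NeZero p := ⟨hp.ne_zero⟩
  have hMfin : FiniteDimensional K M := Module.Finite.of_restrictScalars_finite ℚ K M
  obtain ⟨ε, hε⟩ := HasEnoughRootsOfUnity.exists_primitiveRoot (AlgebraicClosure K) p
  set K₁ : IntermediateField K (AlgebraicClosure K) := IntermediateField.adjoin K {ε} with hK₁
  have hεmem : ε ∈ K₁ := IntermediateField.mem_adjoin_simple_self K ε
  have hK₁fin : FiniteDimensional K K₁ :=
    IntermediateField.adjoin.finiteDimensional (Algebra.IsIntegral.isIntegral ε)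
  have hcyc : IsCyclotomicExtension {p} K K₁ := 
    hε.intermediateField_adjoin_isCyclotomicExtension (K := K)
  have hK₁gal : IsGalois K K₁ := IsCyclotomicExtension.isGalois {p} K K₁
  set M₁ : IntermediateField K (AlgebraicClosure K) := M ⊔ K₁ with hM₁
  have hMM₁ : M ≤ M₁ := le_sup_left
  have hKM₁ : K₁ ≤ M₁ := le_sup_right
  have hM₁fin : FiniteDimensional K M₁ := IntermediateField.finiteDimensional_sup M K₁
  have hM₁norm : Normal K M₁ := by rw [hM₁]; infer_instance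
  have hM₁gal : IsGalois K M₁ := ⟨⟩
  have hnfK₁ : NumberField K₁ := NumberField.of_module_finite K K₁
  have hnfM₁ : NumberField M₁ := NumberField.of_module_finite K M₁
  let _ : Algebra M M₁ := (IntermediateField.inclusion hMM₁).toRingHom.toAlgebra
  let _ : Algebra K₁ M₁ := (IntermediateField.inclusion hKM₁).toRingHom.toAlgebra
  have ht1 : IsScalarTower K M M₁ := IsScalarTower.of_algebraMap_eq fun x => rfl
  have ht2 : IsScalarTower K K₁ M₁ := IsScalarTower.of_algebraMap_eq fun x => rfl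
  set ε₁ : K₁ := ⟨ε, hεmem⟩ with hε₁
  have hε₁p : IsPrimitiveRoot ε₁ p :=
    IsPrimitiveRoot.of_map_of_injective (f := K₁.val) hε K₁.val.injective
  have htow : Tower p K M K₁ M₁ ε₁ :=
    { prim := hε₁p
      gen := by
        intro σ hσ
        apply AlgEquiv.coe_toAlgHom_injective
        apply IntermediateField.adjoin_algHom_ext
        intro x hx
        obtain rfl := Set.mem_singleton_iff.1 hx
        exact hσ
      cop := hcop
      lin := by
        intro g g1 g2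
        apply eq_one_of_sup M K₁ g
        · intro x hx
          have : x = algebraMap M M₁ ⟨x, hx⟩ := rfl
          rw [this, g1]
        · intro x hx
          have : x = algebraMap K₁ M₁ ⟨x, hx⟩ := rfl
          rw [this, g2]
      nt := by
        have hpos : 0 < finrank K₁ M₁ := by
          have : FiniteDimensional K₁ M₁ := FiniteDimensional.right K K₁ M₁
          exact Module.finrank_pos
        by_contra hle
        have h1 : finrank K₁ M₁ = 1 := by omega
        have h2 := Module.finrank_mul_finrank K K₁ M₁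
        rw [h1, mul_one] at h2
        have h3 : K₁ = M₁ := IntermediateField.eq_of_le_of_finrank_eq hKM₁ h2
        apply hnl ε hε
        rw [← hK₁, h3]
        exact hMM₁ }
  obtain ⟨hg1, hg2, hc1, hc2, -, -⟩ := h3 p K M K₁ M₁ ε₁ htow
  intro hfin
  have hZ := hfin.biUnion fun N hN => badp_finite hp K₁ N hN.1 ε₁ hε₁p M₁
  obtain ⟨a, ha0, ha3, haom, hmat, W, hWZ, hWd⟩ := h5 p K M K₁ M₁ ε₁ htow R al hDat _ hZ
  have hnpM : ∀ y : M₁, y ^ p ≠ algebraMap K₁ M₁ (a : K₁) := not_pow_of_not_dvd hp W hWd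
  have hnpK : ∀ y : K₁, y ^ p ≠ (a : K₁) := by
    intro y hy
    apply hnpM (algebraMap K₁ M₁ y)
    rw [← map_pow, hy]
  obtain ⟨N, hNp, hNg, hNs⟩ := h6 p K ε hε ε₁ (a : K₁) rfl haom (by
    rintro ⟨y, hy⟩
    exact hnpK y hy)
  obtain ⟨s, hs⟩ := IsAlgClosed.exists_pow_nat_eq ((a : K₁) : AlgebraicClosure K) (n := p) hp.pos
  have hsN := hNs s hs
  set a' : 𝓞 M₁ := algebraMap (𝓞 K₁) (𝓞 M₁) a with ha'
  have ha'c : (a' : M₁) = algebraMap K₁ M₁ (a : K₁) := rfl
  have hinj : Function.Injective (algebraMap (𝓞 K₁) (𝓞 M₁)) :=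
    FaithfulSMul.algebraMap_injective (𝓞 K₁) (𝓞 M₁)
  refine hWZ (Set.mem_biUnion (x := N) ?_ ⟨(a : K₁), hnpK, ⟨s, hs, hsN⟩, hWd⟩)
  refine ⟨hNp, hNg, ?_⟩
  intro S hPC χ₀ hχ₀ δ Φ P hord hPhi hSel
  refine h7 p K ιinf ιp L S hPC M χ₀ hχ₀ hcop hnl δ Φ P hord hPhi R al hDat hSel M₁ hc1
    (algebraMap K₁ M₁ ε₁) a' ?_ ?_ ?_ ?_ (M₁.val : M₁ →+* AlgebraicClosure K) ?_ s ?_ ?_ N hNp hNg ?_
  · exact hε₁p.map_of_injective (algebraMap K₁ M₁).injective
  · rw [ha', Ne, map_eq_zero_iff _ hinj]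
    exact ha0
  · obtain ⟨c, hc⟩ := ha3
    refine ⟨algebraMap (𝓞 K₁) (𝓞 M₁) c, ?_⟩
    rw [ha', ← map_one (algebraMap (𝓞 K₁) (𝓞 M₁)), ← map_sub, hc, map_mul, map_pow, map_natCast]
  · rw [ha'c]
    exact hmat
  · intro x
    rfl
  · exact hs
  · rintro ⟨y, hy⟩
    apply hnpM y
    apply Subtype.ext
    have hy' : (y : AlgebraicClosure K) = s := hy
    show (y : AlgebraicClosure K) ^ p = _
    rw [hy', hs]
    rfl
  · intro g g1 g2
    have hle : (N ⊔ K₁).toSubalgebra ≤
        AlgHom.equalizer (g : AlgebraicClosure K →ₐ[K] AlgebraicClosure K) (AlgHom.id K _) := by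
      rw [IntermediateField.sup_toSubalgebra_of_right]
      refine sup_le ?_ ?_
      · intro y hy
        exact g1 y hy
      · intro y hy
        exact g2 ⟨y, hKM₁ hy⟩
    exact hle hsN

theorem totallyComplex_of_cm {K : Type} [Field K] [NumberField K] {S : Set (K →+* ℂ)}
    (hS : IsCMType S) : IsTotallyComplex K := by
  refine ⟨fun v => ?_⟩
  rw [← InfinitePlace.not_isReal_iff_isComplex]
  rintro ⟨φ, hφ, rfl⟩
  have h1 : ComplexEmbedding.conjugate φ = φ := ComplexEmbedding.isReal_iff.mp hφ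
  have h := hS φ
  rw [h1] at h
  exact iff_not_self h

theorem two_mul_ncard_cm {K : Type} [Field K] [NumberField K] {S : Set (K →+* ℂ)}
    (hS : IsCMType S) : finrank ℚ K = 2 * S.ncard := by
  have hc : Sᶜ = ComplexEmbedding.conjugate '' S := by
    ext φ
    constructor
    · intro h
      refine ⟨ComplexEmbedding.conjugate φ, ?_, ?_⟩
      · by_contra h2
        exact h ((hS φ).mpr h2)
      · ext x; simp
    · rintro ⟨ψ, hψ, rfl⟩
      exact (hS ψ).mp hψ
  have hinj : Function.Injective (ComplexEmbedding.conjugate : (K →+* ℂ) → (K →+* ℂ)) := by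
    intro a b h
    ext x
    have h2 := RingHom.congr_fun h x
    exact (starRingEnd ℂ).injective h2
  have h1 := Set.ncard_add_ncard_compl S (Set.toFinite _) (Set.toFinite _)
  rw [hc, Set.ncard_image_of_injective _ hinj, Nat.card_eq_fintype_card,
    NumberField.Embeddings.card K ℂ] at h1
  omega

theorem comp_inj {K Ω k : Type} [Field K] [Field Ω] [Field k] (ι : Ω →+* k) :
    Function.Injective (fun σ : K →+* Ω => ι.comp σ) := by
  intro σ τ h
  ext x
  exact ι.injective (RingHom.congr_fun h x)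

theorem tset_ncard {K Ω k : Type} [Field K] [NumberField K] [Field Ω] [CharZero Ω]
    [IsAlgClosed Ω] [NormedField k] (ιinf : Ω →+* ℂ) (ιp : Ω →+* k)
    (S : Set (K →+* ℂ)) : (TSet ιinf ιp S).ncard = S.ncard := by
  have h1 : TSet ιinf ιp S = (fun σ : K →+* Ω => ιp.comp σ) '' {σ | ιinf.comp σ ∈ S} := by
    ext τ
    constructor
    · rintro ⟨σ, h, rfl⟩
      exact ⟨σ, h, rfl⟩
    · rintro ⟨σ, h, rfl⟩
      exact ⟨σ, h, rfl⟩
  have h2 : S = (fun σ : K →+* Ω => ιinf.comp σ) '' {σ | ιinf.comp σ ∈ S} := by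
    ext φ
    constructor
    · intro h
      obtain ⟨σ, rfl⟩ := exists_lift_embedding ιinf φ
      exact ⟨σ, h, rfl⟩
    · rintro ⟨σ, h, rfl⟩
      exact h
  rw [h1, Set.ncard_image_of_injective _ (comp_inj ιp)]
  conv_rhs => rw [h2]
  rw [Set.ncard_image_of_injective _ (comp_inj ιinf)]

theorem tset_closed {K Ω k : Type} [Field K] [NumberField K] [Field Ω] [CharZero Ω]
    [IsAlgClosed Ω] [NormedField k] [CharZero k] [IsAlgClosed k] (ιinf : Ω →+* ℂ) (ιp : Ω →+* k)
    (S : Set (K →+* ℂ))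
    (h : ∀ σ τ : K →+* Ω, (∀ x, ‖ιp (σ x)‖ = ‖ιp (τ x)‖) →
      (ιinf.comp σ ∈ S ↔ ιinf.comp τ ∈ S)) : PlaceClosed (TSet ιinf ιp S) := by
  have key : ∀ σ : K →+* Ω, ιp.comp σ ∈ TSet ιinf ιp S ↔ ιinf.comp σ ∈ S := by
    intro σ
    constructor
    · rintro ⟨σ', h1, h2⟩
      rw [comp_inj ιp h2]
      exact h1
    · intro h1
      exact ⟨σ, h1, rfl⟩
  intro σ τ hn
  obtain ⟨σ', rfl⟩ := exists_lift_embedding ιp σ
  obtain ⟨τ', rfl⟩ := exists_lift_embedding ιp τ
  rw [key, key]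
  exact h σ' τ' hn

theorem nonempty_hom (F A : Type) [Field F] [Field A] [Algebra F A] [IsAlgClosed A] :
    Nonempty (AlgebraicClosure F →+* A) :=
  ⟨(IsAlgClosed.lift (R := F) (S := AlgebraicClosure F) (M := A)).toRingHom⟩

/-- If no power of the generator `δ` fixes `ξ` then `M = K(ξ)`. -/
theorem le_adjoin_of_gen {K Ω : Type*} [Field K] [Field Ω] [Algebra K Ω]
    (M : IntermediateField K Ω) [FiniteDimensional K M] [IsGalois K M] (δ : M ≃ₐ[K] M)
    (hgen : ∀ g : M ≃ₐ[K] M, g ∈ Subgroup.zpowers δ) (ξ : M)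
    (h : ∀ e, 0 < e → e < orderOf δ → (δ ^ e) ξ ≠ ξ) :
    M ≤ IntermediateField.adjoin K {(ξ : Ω)} := by
  have hfin : IsOfFinOrder δ := isOfFinOrder_of_finite δ
  set F : IntermediateField K M := IntermediateField.adjoin K {ξ} with hF
  have h1 : F.fixingSubgroup = ⊥ := by
    rw [eq_bot_iff]
    intro g hg
    rw [Subgroup.mem_bot]
    have hgξ : g ξ = ξ := by
      rw [IntermediateField.mem_fixingSubgroup_iff] at hg
      exact hg ξ (IntermediateField.mem_adjoin_simple_self K ξ)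
    have h2 : g ∈ Submonoid.powers δ := by
      rw [hfin.mem_powers_iff_mem_zpowers]
      exact hgen g
    obtain ⟨n, hn⟩ := h2
    have hn' : δ ^ n = g := hn
    rw [← pow_mod_orderOf] at hn'
    have hlt : n % orderOf δ < orderOf δ := Nat.mod_lt _ hfin.orderOf_pos
    rcases Nat.eq_zero_or_pos (n % orderOf δ) with h0 | h0
    · rw [← hn', h0, pow_zero]
    · exfalso
      apply h _ h0 hlt
      rw [hn', hgξ]
  have h2 : F = ⊤ := by
    rw [← IsGalois.fixedField_fixingSubgroup F, h1, IntermediateField.fixedField_bot]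
  intro x hx
  have h3 : (⟨x, hx⟩ : M) ∈ F := by rw [h2]; trivial
  have h4 : x ∈ IntermediateField.lift F := by
    exact (IntermediateField.mem_lift (⟨x, hx⟩ : M)).2 h3
  rw [hF, IntermediateField.lift_adjoin_simple] at h4
  exact h4

/-- **E_RSP.** -/
theorem e_rsp (h1 : Pool.Agent.Helper51.RP.S_PHI) (h2 : Pool.Agent.Helper42.RD.D_COR)
    (h3 : E_TOW) (h4 : E_TOR) (h5 : E_EXA) (h6 : E_KUM) (h7 : E_GOO) :
    Pool.Agent.Helper42.RD.E_RSP := by
  intro p hpF K _ _ ιinf ιp L S hS hord M _ _ χ₀ hχ₀ hcop hnl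
  have hp : p.Prime := hpF.out
  have hchar : CharZero (AlgebraicClosure K) :=
    charZero_of_injective_algebraMap (algebraMap K (AlgebraicClosure K)).injective
  have htc : IsTotallyComplex K := totallyComplex_of_cm hS
  have hnf : NumberField M := NumberField.of_module_finite K M
  have hne : Nonempty (AlgebraicClosure ℚ →+* ℂ_[p]) := nonempty_hom ℚ ℂ_[p]
  have hcl : PlaceClosed (TSet ιinf ιp S) := tset_closed ιinf ιp S hord
  have hcard : finrank ℚ K = 2 * (TSet ιinf ιp S).ncard := by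
    rw [tset_ncard, two_mul_ncard_cm hS]
  have hinj : Function.Injective ((Units.coeHom ℂ_[p]).comp χ₀) := by
    intro x y hxy
    apply hχ₀
    exact Units.ext hxy
  have hcyc : IsCyclic (M ≃ₐ[K] M) := isCyclic_of_injective_ringHom _ hinj
  obtain ⟨δ, hδ⟩ := IsCyclic.exists_generator (α := (M ≃ₐ[K] M))
  have horder : orderOf δ = finrank K M := by
    rw [orderOf_eq_card_of_forall_mem_zpowers hδ, IsGalois.card_aut_eq_finrank]
  have hprim : IsPrimitiveRoot ((χ₀ δ : ℂ_[p]ˣ) : ℂ_[p]) (finrank K M) := by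
    have h4 : orderOf ((χ₀ δ : ℂ_[p]ˣ) : ℂ_[p]) = finrank K M := by
      rw [← horder]
      exact orderOf_injective ((Units.coeHom ℂ_[p]).comp χ₀) hinj δ
    rw [← h4]
    exact IsPrimitiveRoot.orderOf _
  have hpne : NeZero p := ⟨hp.ne_zero⟩
  obtain ⟨ε, hε⟩ := HasEnoughRootsOfUnity.exists_primitiveRoot (AlgebraicClosure K) p
  have hlt : 1 < finrank K M := by
    have hpos : 0 < finrank K M := Module.finrank_pos
    by_contra hle
    have h9 : finrank K M = 1 := by omega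
    have h8 : M = ⊥ := IntermediateField.finrank_eq_one_iff.1 h9
    apply hnl ε hε
    rw [h8]
    exact bot_le
  obtain ⟨Φ, P, hPhi⟩ := h1 p ℂ_[p] (finrank K M) _ hcop hlt hprim
  have htor : TorOK P δ := by
    refine h4 p ℂ_[p] (finrank K M) _ Φ P hPhi K M δ ?_ ?_
    · rw [← horder, pow_orderOf_eq_one]
    · intro ξ hξ
      by_contra hcon
      push Not at hcon
      apply hnl (ξ : AlgebraicClosure K) (hξ.map_of_injective M.val.injective)
      apply le_adjoin_of_gen M δ hδ ξ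
      intro e he1 he2
      exact hcon e he1 (by rw [← horder]; exact he2)
  obtain ⟨R, al, hDat, hSel⟩ := h2 p ℂ_[p] hne L K M (finrank K M) δ _ Φ P hPhi horder rfl htor
    (TSet ιinf ιp S) hcl hcard
  have hinm := e_inm h3 h5 h6 h7 p K ιinf ιp L M hcop hnl R al hDat
  refine hinm.mono ?_
  rintro N ⟨n1, n2, n3⟩
  exact ⟨n1, n2, n3 S hcl χ₀ hχ₀ δ Φ P horder hPhi hSel⟩

end Pool.Agent.Helper35.RD
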