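import Pool.Agent.Helper42.RD.Goals2
import Pool.Agent.Helper76.RD.Goals3

/-!
# Project RD: Kummer theory in a compositum
-/

namespace Pool.Agent.Helper35.RD

open NumberField Polynomial Module IsDedekindDomain TensorProduct Pool.Agent.Helper51.SigLeo
open Pool.Agent.Helper51.RP Pool.Agent.Helper42.RD

/-- Two Kummer generators of the same extension of degree `p`. -/
theorem kummer_simple {F Ω : Type*} [Field F] [Field Ω] [Algebra F Ω] {p : ℕ} (hp : p.Prime)
    (ε : F) (hε : IsPrimitiveRoot ε p) (a a₀ : F) (ha : a ≠ 0)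
    (ha₀ : ∀ y : F, y ^ p ≠ a₀) (s s₀ : Ω) (hs : s ^ p = algebraMap F Ω a)
    (hs₀ : s₀ ^ p = algebraMap F Ω a₀) (hmem : s ∈ IntermediateField.adjoin F {s₀}) :
    ∃ (i : ℕ) (c : F), a = c ^ p * a₀ ^ i := by
  classical
  have hp0 : 0 < p := hp.pos
  have hirr : Irreducible (X ^ p - C a₀ : F[X]) := X_pow_sub_C_irreducible_of_prime hp ha₀
  have hmon : (X ^ p - C a₀ : F[X]).Monic := monic_X_pow_sub_C a₀ hp.ne_zero
  have hroot : aeval s₀ (X ^ p - C a₀ : F[X]) = 0 := by
    simp [hs₀]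
  have hmin : minpoly F s₀ = X ^ p - C a₀ :=
    (minpoly.eq_of_irreducible_of_monic hirr hroot hmon).symm
  have hint : IsIntegral F s₀ := ⟨X ^ p - C a₀, hmon, by simpa [aeval_def] using hroot⟩
  have hs0 : s ≠ 0 := by
    rintro rfl
    rw [zero_pow hp.ne_zero] at hs
    exact ha ((map_eq_zero _).1 hs.symm)
  have hmem' : s ∈ (IntermediateField.adjoin F {s₀}).toSubalgebra := hmem
  rw [IntermediateField.adjoin_simple_toSubalgebra_of_isAlgebraic hint.isAlgebraic,
    Algebra.adjoin_singleton_eq_range_aeval] at hmem'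
  obtain ⟨q, hq⟩ := hmem'
  set r : F[X] := q %ₘ (X ^ p - C a₀) with hr
  have hrs : aeval s₀ r = s := by
    rw [hr, aeval_modByMonic_eq_self_of_root hroot]
    exact hq
  have hrdeg : r.degree < p := by
    have := degree_modByMonic_lt q hmon
    rwa [degree_X_pow_sub_C hp0] at this
  -- the conjugate
  have hd1 : (X ^ p - C a₀ : F[X]) ∣ r ^ p - C a := by
    rw [← hmin]
    apply minpoly.dvd
    simp [hrs, hs]
  set s₁ : Ω := algebraMap F Ω ε * s₀ with hs₁
  have hs₁p : aeval s₁ (X ^ p - C a₀ : F[X]) = 0 := by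
    simp only [map_sub, map_pow, aeval_X, aeval_C, hs₁]
    rw [mul_pow, ← map_pow, hε.pow_eq_one, map_one, one_mul, hs₀, sub_self]
  have ht : (aeval s₁ r) ^ p = algebraMap F Ω a := by
    obtain ⟨g, hg⟩ := hd1
    have h1 : aeval s₁ (r ^ p - C a) = 0 := by
      rw [hg, map_mul, hs₁p, zero_mul]
    simp only [map_sub, map_pow, aeval_C] at h1
    exact sub_eq_zero.1 h1
  have hεΩ : IsPrimitiveRoot (algebraMap F Ω ε) p :=
    hε.map_of_injective (algebraMap F Ω).injective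
  have hne : NeZero p := ⟨hp.ne_zero⟩
  obtain ⟨i, hip, hi⟩ := hεΩ.eq_pow_of_pow_eq_one (ξ := aeval s₁ r / s) (by
    rw [div_pow, ht, hs, div_self]
    rw [← hs]
    exact pow_ne_zero _ hs0)
  have hi' : aeval s₁ r = algebraMap F Ω (ε ^ i) * s := by
    rw [map_pow, hi, div_mul_cancel₀ _ hs0]
  set g : F[X] := r.comp (C ε * X) - C (ε ^ i) * r with hg
  have hcomp : aeval s₀ (r.comp (C ε * X)) = aeval s₁ r := by
    rw [aeval_comp]
    simp [hs₁]
  have hg0 : aeval s₀ g = 0 := by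
    rw [hg, map_sub, hcomp, map_mul, aeval_C, hrs, hi', sub_self]
  have hgcoeff : ∀ j, g.coeff j = r.coeff j * ε ^ j - ε ^ i * r.coeff j := by
    intro j
    rw [hg, coeff_sub, coeff_C_mul, comp_C_mul_X_coeff]
  have hgdeg : g.degree < p := by
    rw [degree_lt_iff_coeff_zero]
    intro j hj
    rw [hgcoeff, coeff_eq_zero_of_degree_lt (lt_of_lt_of_le hrdeg (by exact_mod_cast hj))]
    simp
  have hgz : g = 0 := by
    have hdvd : (X ^ p - C a₀ : F[X]) ∣ g := by
      rw [← hmin]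
      exact minpoly.dvd F s₀ hg0
    refine eq_zero_of_dvd_of_degree_lt hdvd ?_
    rwa [degree_X_pow_sub_C hp0]
  have hcz : ∀ j, j ≠ i → r.coeff j = 0 := by
    intro j hj
    by_cases hjp : j < p
    · have h1 := hgcoeff j
      rw [hgz, coeff_zero] at h1
      have h2 : r.coeff j * (ε ^ j - ε ^ i) = 0 := by rw [mul_sub]; linear_combination -h1
      rcases mul_eq_zero.1 h2 with h3 | h3
      · exact h3
      · exact absurd (hε.pow_inj hjp hip (sub_eq_zero.1 h3)) hj
    · exact coeff_eq_zero_of_degree_lt (lt_of_lt_of_le hrdeg (by exact_mod_cast not_lt.1 hjp))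
  have hreq : r = C (r.coeff i) * X ^ i := by
    ext j
    rw [coeff_C_mul_X_pow]
    split_ifs with h
    · rw [h]
    · exact hcz j h
  refine ⟨i, r.coeff i, ?_⟩
  apply (algebraMap F Ω).injective
  rw [← hs, ← hrs, hreq]
  simp only [map_mul, map_pow, aeval_C, aeval_X, coeff_C_mul_X_pow, if_true]
  rw [mul_pow, ← hs₀, ← pow_mul, ← pow_mul, mul_comm i p]

/-- Two Kummer generators in the compositum of `K₁` and an extension of degree `p`. -/
theorem kummer_sup {K Ω : Type*} [Field K] [Field Ω] [Algebra K Ω] {p : ℕ} (hp : p.Prime)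
    (K₁ N : IntermediateField K Ω) [FiniteDimensional K K₁] (hN : finrank K N = p)
    (ε : K₁) (hε : IsPrimitiveRoot ε p) (a a₀ : K₁) (ha : a ≠ 0)
    (ha₀ : ∀ y : K₁, y ^ p ≠ a₀) (s s₀ : Ω) (hs : s ^ p = (a : Ω))
    (hs₀ : s₀ ^ p = (a₀ : Ω)) (hmem : s ∈ N ⊔ K₁) (hmem₀ : s₀ ∈ N ⊔ K₁) :
    ∃ (i : ℕ) (c : K₁), a = c ^ p * a₀ ^ i := by
  have hNf : FiniteDimensional K N := FiniteDimensional.of_finrank_pos (by rw [hN]; exact hp.pos)
  refine kummer_simple hp ε hε a a₀ ha ha₀ s s₀ hs hs₀ ?_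
  have hp0 : 0 < p := hp.pos
  have hirr : Irreducible (X ^ p - C a₀ : K₁[X]) := X_pow_sub_C_irreducible_of_prime hp ha₀
  have hmon : (X ^ p - C a₀ : K₁[X]).Monic := monic_X_pow_sub_C a₀ hp.ne_zero
  have hroot : aeval s₀ (X ^ p - C a₀ : K₁[X]) = 0 := by
    simp only [map_sub, map_pow, aeval_X, aeval_C]
    rw [hs₀, sub_eq_zero]
    rfl
  have hmin : minpoly K₁ s₀ = X ^ p - C a₀ :=
    (minpoly.eq_of_irreducible_of_monic hirr hroot hmon).symm
  have hint : IsIntegral K₁ s₀ := ⟨X ^ p - C a₀, hmon, by simpa [aeval_def] using hroot⟩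
  have hfr : finrank K₁ (IntermediateField.adjoin K₁ {s₀}) = p := by
    rw [IntermediateField.adjoin.finrank hint, hmin, natDegree_X_pow_sub_C]
  have hEf : FiniteDimensional K₁ (IntermediateField.adjoin K₁ {s₀}) :=
    FiniteDimensional.of_finrank_pos (by rw [hfr]; exact hp.pos)
  set E : IntermediateField K Ω :=
    IntermediateField.restrictScalars K (IntermediateField.adjoin K₁ {s₀}) with hE
  have hEle : E ≤ N ⊔ K₁ := by
    rw [hE, IntermediateField.restrictScalars_adjoin_eq_sup]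
    refine sup_le le_sup_right ?_
    rw [IntermediateField.adjoin_simple_le_iff]
    exact hmem₀
  have hEr : finrank K E = finrank K K₁ * p := by
    rw [← hfr]
    exact (Module.finrank_mul_finrank K K₁ (IntermediateField.adjoin K₁ {s₀})).symm
  have hle : finrank K ↥(N ⊔ K₁) ≤ finrank K E := by
    rw [hEr, mul_comm, ← hN]
    exact IntermediateField.finrank_sup_le N K₁
  have heq : E = N ⊔ K₁ := IntermediateField.eq_of_le_of_finrank_le hEle hle
  rw [← heq] at hmem
  exact hmem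

section ordv

variable {M : Type} [Field M] [NumberField M]

theorem ordv_mul (w : HeightOneSpectrum (𝓞 M)) {x y : M} (hx : x ≠ 0) (hy : y ≠ 0) :
    ordv w (x * y) = ordv w x + ordv w y := by
  have h1 : w.valuation M x ≠ 0 := (Valuation.ne_zero_iff _).mpr hx
  have h2 : w.valuation M y ≠ 0 := (Valuation.ne_zero_iff _).mpr hy
  unfold ordv
  rw [map_mul, WithZero.log_mul h1 h2]
  ring

theorem ordv_one (w : HeightOneSpectrum (𝓞 M)) : ordv w (1 : M) = 0 := by
  simp [ordv]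

theorem ordv_pow (w : HeightOneSpectrum (𝓞 M)) {x : M} (hx : x ≠ 0) (n : ℕ) :
    ordv w (x ^ n) = n * ordv w x := by
  induction n with
  | zero => simp [ordv_one]
  | succ n ih =>
    rw [pow_succ, ordv_mul w (pow_ne_zero n hx) hx, ih]
    push_cast
    ring

theorem not_pow_of_not_dvd {p : ℕ} (hp : p.Prime) (w : HeightOneSpectrum (𝓞 M)) {x : M}
    (hx : ¬ (p : ℤ) ∣ ordv w x) : ∀ y : M, y ^ p ≠ x := by
  intro y hy
  by_cases h0 : y = 0
  · subst h0
    apply hx
    rw [← hy, zero_pow hp.ne_zero]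
    simp [ordv]
  · apply hx
    rw [← hy, ordv_pow w h0]
    exact dvd_mul_right _ _

theorem finite_not_dvd (p : ℕ) (x : M) (hx : x ≠ 0) :
    {w : HeightOneSpectrum (𝓞 M) | ¬ (p : ℤ) ∣ ordv w x}.Finite := by
  refine ((HeightOneSpectrum.Support.finite (𝓞 M) x).union
    (HeightOneSpectrum.Support.finite (𝓞 M) x⁻¹)).subset ?_
  intro w hw
  have hne : w.valuation M x ≠ 1 := by
    intro h1
    apply hw
    unfold ordv
    rw [h1]
    simp
  have h0 : w.valuation M x ≠ 0 := (Valuation.ne_zero_iff _).mpr hx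
  rcases lt_or_gt_of_ne hne with h | h
  · right
    show 1 < w.valuation M x⁻¹
    rw [map_inv₀]
    exact (one_lt_inv₀ (zero_lt_iff.mpr h0)).mpr h
  · left
    exact h

end ordv

/-- The primes of `M₁` at which the Kummer generators of `N K₁` have valuation prime to `p`. -/
def badp (p : ℕ) {K Ω : Type} [Field K] [Field Ω] [Algebra K Ω] (K₁ N : IntermediateField K Ω)
    (M₁ : Type) [Field M₁] [NumberField M₁] [Algebra K₁ M₁] :
    Set (HeightOneSpectrum (𝓞 M₁)) :=
  {W | ∃ a : K₁, (∀ y : K₁, y ^ p ≠ a) ∧ (∃ s : Ω, s ^ p = (a : Ω) ∧ s ∈ N ⊔ K₁) ∧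
    ¬ (p : ℤ) ∣ ordv W (algebraMap K₁ M₁ a)}

theorem badp_finite {K Ω : Type} [Field K] [Field Ω] [Algebra K Ω] {p : ℕ} (hp : p.Prime)
    (K₁ N : IntermediateField K Ω) [FiniteDimensional K K₁] (hN : finrank K N = p)
    (ε : K₁) (hε : IsPrimitiveRoot ε p) (M₁ : Type) [Field M₁] [NumberField M₁]
    [Algebra K₁ M₁] : (badp p K₁ N M₁).Finite := by
  rcases (badp p K₁ N M₁).eq_empty_or_nonempty with h | ⟨w₀, a₀, h1, ⟨s₀, h2, h3⟩, h4⟩
  · rw [h]; exact Set.finite_empty
  · have h0 : a₀ ≠ 0 := by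
      rintro rfl
      exact h1 0 (zero_pow hp.ne_zero)
    have h0' : algebraMap K₁ M₁ a₀ ≠ 0 := (_root_.map_ne_zero _).2 h0
    refine (finite_not_dvd p (algebraMap K₁ M₁ a₀) h0').subset ?_
    rintro w ⟨a, g1, ⟨s, g2, g3⟩, g4⟩
    have g0 : a ≠ 0 := by
      rintro rfl
      exact g1 0 (zero_pow hp.ne_zero)
    obtain ⟨i, c, hc⟩ := kummer_sup hp K₁ N hN ε hε a a₀ g0 h1 s s₀ g2 h2 g3 h3
    have hc0 : c ≠ 0 := by
      rintro rfl
      apply g0
      rw [hc, zero_pow hp.ne_zero, zero_mul]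
    have hc0' : algebraMap K₁ M₁ c ≠ 0 := (_root_.map_ne_zero _).2 hc0
    intro hd
    apply g4
    rw [hc, map_mul, map_pow, map_pow, ordv_mul w (pow_ne_zero _ hc0') (pow_ne_zero _ h0'),
      ordv_pow w hc0', ordv_pow w h0']
    exact dvd_add (dvd_mul_right _ _) (Dvd.dvd.mul_left hd _)

end Pool.Agent.Helper35.RD
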